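import Mathlib
import Pool.Agent.H852.QP.Wald

set_option autoImplicit false

/-!
# Waldschmidt constants of generic points in the plane: quasi-polynomial precision

For every algebraically closed field `k` of any characteristic and every set of `r ≥ 5 ^ 168`
generic points of the plane over `k`: every nonzero form of degree `d` vanishing to order at least
`m` at the points satisfies `d ≥ m √r`, provided that `1 ≤ m ≤ exp ((log r) ^ 2 / 92)`, and the
Waldschmidt constant `e` satisfies `(1 - exp (-(log r) ^ 2 / 31)) √r ≤ e ≤ √r`.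
-/

namespace Pool.Agent.Results.MP_d0dfcd_ag.QuasiPolynomial

open MvPolynomial Filter Topology

universe u

/-- The form `F` vanishes to order at least `m` at the point `(1 : p 0 : p 1)`: it lies in the
`m`-th power of the ideal of the point. -/
def VanishesAt {k : Type u} [Field k] (p : Fin 2 → k) (m : ℕ) (F : MvPolynomial (Fin 3) k) :
    Prop :=
  F ∈ (Ideal.span {X 1 - C (p 0) * X 0, X 2 - C (p 1) * X 0} :
    Ideal (MvPolynomial (Fin 3) k)) ^ m

/-- The least degree `a(S, m)` of a nonzero form vanishing to order at least `m` at every point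
`(1 : P i 0 : P i 1)`. -/
noncomputable def leastDegree {k : Type u} [Field k] {r : ℕ} (P : Fin r → Fin 2 → k) (m : ℕ) : ℕ :=
  sInf {d | ∃ F : MvPolynomial (Fin 3) k, F.IsHomogeneous d ∧ F ≠ 0 ∧ ∀ i, VanishesAt (P i) m F}

/-- The points `(1 : P i 0 : P i 1)` are generic: their affine coordinates are algebraically
independent over the prime field `⊥` of `k`. -/
def Generic {k : Type u} [Field k] {r : ℕ} (P : Fin r → Fin 2 → k) : Prop :=
  AlgebraicIndependent (⊥ : Subfield k) (fun ij : Fin r × Fin 2 => P ij.1 ij.2)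

theorem result (k : Type u) [Field k] [IsAlgClosed k] (r : ℕ) (hr : 5 ^ 168 ≤ r)
    (P : Fin r → Fin 2 → k) (hP : Generic P) :
    (∀ m : ℕ, 0 < m → (m : ℝ) ≤ Real.exp (Real.log r ^ 2 / 92) →
      (m : ℝ) * Real.sqrt r ≤ leastDegree P m) ∧
    ∃ e : ℝ, Tendsto (fun m : ℕ => (leastDegree P m : ℝ) / m) atTop (𝓝 e) ∧
      (1 - Real.exp (-(Real.log r ^ 2 / 31))) * Real.sqrt r ≤ e ∧ e ≤ Real.sqrt r := by
  constructor
  · intro m _ hm
    obtain ⟨p, hp1, hp2⟩ := Pool.Agent.H852.QP.exists_p_exp hr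
    exact Pool.Agent.H852.QP.wald_exactQ hp1 hP m (hm.trans hp2)
  · obtain ⟨q, hq1, hq2⟩ := Pool.Agent.H852.QP.exists_q_exp hr
    refine Pool.Agent.H519R3.AC.exists_wald P fun m _ => ?_
    have h1 := Pool.Agent.H852.QP.wald_lowQ hq1 hP m
    obtain ⟨x, hx⟩ : ∃ x, x = Real.exp (-(Real.log r ^ 2 / 31)) := ⟨_, rfl⟩
    rw [← hx] at hq2 ⊢
    have hx0 : 0 < x := by rw [hx]; exact Real.exp_pos _
    obtain ⟨a, ha⟩ : ∃ a : ℝ, a = (Pool.Agent.H519R3.AC.alp P m : ℝ) := ⟨_, rfl⟩
    have ha0 : 0 ≤ a := by rw [ha]; exact Nat.cast_nonneg _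
    rw [← ha] at h1 ⊢
    have h2 : (m : ℝ) * Real.sqrt r ≤ (1 + x) * a :=
      h1.trans (mul_le_mul_of_nonneg_right (by linarith) ha0)
    have h3 : 0 ≤ (m : ℝ) * Real.sqrt r := by positivity
    rcases le_or_gt x 1 with hx1 | hx1
    · calc (1 - x) * Real.sqrt r * m = (1 - x) * ((m : ℝ) * Real.sqrt r) := by ring
        _ ≤ (1 - x) * ((1 + x) * a) := mul_le_mul_of_nonneg_left h2 (by linarith)
        _ = (1 - x * x) * a := by ring
        _ ≤ 1 * a := mul_le_mul_of_nonneg_right (by nlinarith) ha0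
        _ = a := one_mul a
    · calc (1 - x) * Real.sqrt r * m = (1 - x) * ((m : ℝ) * Real.sqrt r) := by ring
        _ ≤ 0 := mul_nonpos_of_nonpos_of_nonneg (by linarith) h3
        _ ≤ a := ha0

end Pool.Agent.Results.MP_d0dfcd_ag.QuasiPolynomial
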